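import Pool.Agent.Y320.CM.Stm

/-!
Project CM, job CM-NOFIX: the action of a hyperbolic group with sphere boundary has no global
fixed point.
-/

set_option autoImplicit false
open Filter Topology

namespace Pool.Agent.Y664.CM

open Pool.Agent.Y320.CM

section basic

variable {G : Type} [Group G] {d : G → G → ℝ} {δ : ℝ}

lemma gp_symm (h : HypD G d δ) (w x y : G) : gp d w x y = gp d w y x := by
  unfold gp
  rw [h.symm x y]; ring

lemma d_inv (h : HypD G d δ) (g : G) : d 1 g⁻¹ = d 1 g := by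
  have := h.left g 1 g⁻¹
  rw [mul_one, mul_inv_cancel] at this
  rw [← this, h.symm]

/-- `gp d 1 z⁻¹ (z⁻¹ r) = d 1 z - gp d 1 z r` -/
lemma gp_inv (h : HypD G d δ) (z r : G) : gp d 1 z⁻¹ (z⁻¹ * r) = d 1 z - gp d 1 z r := by
  have h1 := d_inv h z
  have h2 := h.left z 1 (z⁻¹ * r)
  rw [mul_one, mul_inv_cancel_left] at h2
  have h3 := h.left z z⁻¹ (z⁻¹ * r)
  rw [mul_inv_cancel, mul_inv_cancel_left] at h3
  unfold gp
  rw [← h2, ← h3, h1]
  ring

lemma gp_mul (h : HypD G d δ) (g a b : G) : gp d 1 a b - d 1 g ≤ gp d 1 (g * a) (g * b) := by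
  have h1 := h.left g a b
  have h2 : ∀ a, d 1 a - d 1 g ≤ d 1 (g * a) := fun a => by
    have h3 := h.tri g 1 (g * a)
    have h4 := h.left g 1 a
    rw [mul_one] at h4
    rw [h4, h.symm g 1] at h3
    linarith
  have h3 := h2 a
  have h4 := h2 b
  unfold gp
  rw [h1]
  linarith

lemma hyp' (h : HypD G d δ) {x y z : G} {K : ℝ} (h1 : K ≤ gp d 1 x y) (h2 : K ≤ gp d 1 y z) :
    K - δ ≤ gp d 1 x z := by
  have := h.hyp 1 x y z
  have := le_min h1 h2
  linarith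

/-- two different boundary points: the Gromov products are bounded -/
lemma bdd_of_ne {φ : (ℕ → G) → Sph} (h : HypD G d δ) (b : Bd d φ) {x r : ℕ → G} (hx : CI d x)
    (hr : CI d r) (hne : φ x ≠ φ r) :
    ∃ C : ℝ, 0 ≤ C ∧ ∃ M : ℕ, ∀ i j, M ≤ i → M ≤ j → gp d 1 (x i) (r j) ≤ C := by
  have h1 := mt (b.eqv x r hx hr).2 hne
  push Not at h1
  obtain ⟨K0, hK0⟩ := h1
  unfold Near at hK0
  push Not at hK0
  obtain ⟨M1, hM1⟩ := hx (K0 + 2 * δ + 1)
  obtain ⟨M2, hM2⟩ := hr (K0 + 2 * δ + 1)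
  obtain ⟨i0, j0, hi0, hj0, hlt⟩ := hK0 (max M1 M2)
  have hδ := h.nonneg
  refine ⟨max (K0 + 2 * δ) 0, le_max_right _ _, max M1 M2, fun i j hi hj => ?_⟩
  by_contra hcon
  push Not at hcon
  have hcon1 : K0 + 2 * δ < gp d 1 (x i) (r j) := (le_max_left _ _).trans_lt hcon
  have h2 := hM1 i0 i ((le_max_left _ _).trans hi0) ((le_max_left _ _).trans hi)
  have h3 := hM2 j j0 ((le_max_right _ _).trans hj) ((le_max_right _ _).trans hj0)
  have h4 : K0 + 2 * δ - δ ≤ gp d 1 (x i0) (r j) := hyp' h (by linarith) hcon1.le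
  have h5 : K0 + 2 * δ - δ - δ ≤ gp d 1 (x i0) (r j0) := hyp' h h4 (by linarith)
  linarith

lemma countable_group (h : HypD G d δ) : Countable G := by
  have h1 : (Set.univ : Set G) = ⋃ n : ℕ, {g : G | d 1 g ≤ n} := by
    ext g
    simp only [Set.mem_univ, Set.mem_iUnion, true_iff, Set.mem_ofPred_eq]
    exact exists_nat_ge _
  have h2 : (Set.univ : Set G).Countable := by
    rw [h1]
    exact Set.countable_iUnion fun n => (h.fin n).countable
  exact Set.countable_univ_iff.1 h2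

end basic

/-- the sphere is uncountable -/
lemma sph_uncountable : ¬ (Set.univ : Set Sph).Countable := by
  intro hc
  have h1 := hc.image fun p : Sph => p.1 0
  have h2 : Set.Icc (0 : ℝ) 1 ⊆ (fun p : Sph => p.1 0) '' Set.univ := by
    intro t ht
    have hs : (0 : ℝ) ≤ 1 - t ^ 2 := by nlinarith [ht.1, ht.2]
    refine ⟨⟨!₂[t, √(1 - t ^ 2), 0], ?_⟩, trivial, by simp⟩
    rw [mem_sphere_zero_iff_norm, EuclideanSpace.norm_eq, Real.sqrt_eq_one]
    simp [Fin.sum_univ_three, Real.sq_sqrt hs]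
  have h3 := h1.mono h2
  have h4 : Cardinal.mk (Set.Icc (0 : ℝ) 1) ≤ Cardinal.aleph0 := Cardinal.mk_le_aleph0_iff.2 h3
  rw [Cardinal.mk_Icc_real zero_lt_one] at h4
  exact absurd h4 (not_le.2 Cardinal.aleph0_lt_continuum)

section core

variable {G : Type} [Group G] {d : G → G → ℝ} {δ : ℝ} {φ : (ℕ → G) → Sph}
  {τ : G → Sph → Sph}

/-- a point `z` far out on the way to a boundary point different from the fixed point `φ r`:
the inverse is close to `φ r` -/
lemma inv_near (hA : S_ACTC) (h : HypD G d δ) (b : Bd d φ) (e : Eqv d φ τ) {x r : ℕ → G}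
    (hr : CI d r) (hfix : ∀ g, τ g (φ r) = φ r) {C : ℝ} (hC : 0 ≤ C)
    {M : ℕ} (hM : ∀ i j, M ≤ i → M ≤ j → gp d 1 (x i) (r j) ≤ C) {z : G} {t : ℕ}
    (hz : d 1 z = t) (hzx : ∃ M : ℕ, ∀ i, M ≤ i → (t : ℝ) - δ ≤ gp d 1 (x i) z)
    (ht : C + 2 * δ < t) :
    ∃ M' : ℕ, ∀ j, M' ≤ j → (t : ℝ) - C - 2 * δ ≤ gp d 1 z⁻¹ (r j) := by
  have hδ := h.nonneg
  obtain ⟨M1, hM1⟩ := hzx
  have h1 : ∀ j, M ≤ j → gp d 1 z (r j) ≤ C + δ := by
    intro j hj
    by_contra hcon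
    push Not at hcon
    have h2 := hM (max M M1) j (le_max_left _ _) hj
    have h3 := hM1 (max M M1) (le_max_right _ _)
    have h4 := h.hyp 1 (x (max M M1)) z (r j)
    have h5 : C + δ < min (gp d 1 (x (max M M1)) z) (gp d 1 z (r j)) :=
      lt_min (by linarith) hcon
    linarith
  have hr' : CI d (fun i => z⁻¹ * r i) := (hA G d δ φ τ h b e).1 z⁻¹ r hr
  have h2 : φ (fun i => z⁻¹ * r i) = φ r := by rw [← e z⁻¹ r hr, hfix]
  obtain ⟨M2, hM2⟩ := (b.eqv _ _ hr' hr).1 h2 t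
  refine ⟨max M M2, fun j hj => ?_⟩
  have h3 := hM2 j j ((le_max_right _ _).trans hj) ((le_max_right _ _).trans hj)
  have h4 := h1 j ((le_max_left _ _).trans hj)
  have h5 := gp_inv h z (r j)
  rw [hz] at h5
  have h6 : (t : ℝ) - C - δ - δ ≤ gp d 1 z⁻¹ (r j) :=
    hyp' h (y := z⁻¹ * r j) (by linarith) (by linarith)
  linarith

/-- if there is a global fixed point then the group is transitive on the other points -/
lemma trans_of_fix (hA : S_ACTC) (hR : S_RAY) (h : HypD G d δ) (b : Bd d φ) (e : Eqv d φ τ)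
    {q : Sph} (hfix : ∀ g, τ g q = q) {p p' : Sph} (hp : p ≠ q) (hp' : p' ≠ q) :
    ∃ g, τ g p' = p := by
  have hδ := h.nonneg
  obtain ⟨r, hr, rfl⟩ := b.surj q
  obtain ⟨x, hx, rfl⟩ := b.surj p
  obtain ⟨x', hx', rfl⟩ := b.surj p'
  obtain ⟨C1, hC1, M1, hM1⟩ := bdd_of_ne h b hx hr hp
  obtain ⟨C2, hC2, M2, hM2⟩ := bdd_of_ne h b hx' hr hp'
  obtain ⟨z, hz, hzx⟩ := hR G d δ h x hx
  obtain ⟨z', hz', hzx'⟩ := hR G d δ h x' hx'
  set C := max C1 C2 with hC
  have hC1' : C1 ≤ C := le_max_left _ _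
  have hC2' : C2 ≤ C := le_max_right _ _
  have hC0 : 0 ≤ C := hC1.trans hC1'
  have key : ∀ t : ℕ, C + 2 * δ < t → d 1 (z t * (z' t)⁻¹) ≤ 2 * C + 6 * δ := by
    intro t ht
    obtain ⟨N1, hN1⟩ := inv_near hA h b e hr hfix hC0 (M := M1)
      (fun i j hi hj => (hM1 i j hi hj).trans hC1') (hz t) (hzx t) ht
    obtain ⟨N2, hN2⟩ := inv_near hA h b e hr hfix hC0 (M := M2)
      (fun i j hi hj => (hM2 i j hi hj).trans hC2') (hz' t) (hzx' t) ht
    have h1 := hN1 (max N1 N2) (le_max_left _ _)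
    have h2 := hN2 (max N1 N2) (le_max_right _ _)
    rw [gp_symm h] at h2
    have h3 := hyp' h h1 h2
    have h4 := h.left (z t) (z t)⁻¹ (z' t)⁻¹
    rw [mul_inv_cancel] at h4
    rw [h4]
    unfold gp at h3
    rw [d_inv h, d_inv h, hz, hz'] at h3
    linarith
  -- pigeonhole
  have hfin := h.fin (2 * C + 6 * δ)
  obtain ⟨T, hT⟩ := exists_nat_gt (C + 2 * δ)
  have hpig : ∃ g : G, ∀ n : ℕ, ∃ t, n ≤ t ∧ z t = g * z' t := by
    by_contra hcon
    push Not at hcon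
    choose nn hnn using hcon
    have hfs : ∃ n : ℕ, ∀ g ∈ {g : G | d 1 g ≤ 2 * C + 6 * δ}, nn g ≤ n := by
      obtain ⟨n, hn⟩ := (hfin.image nn).bddAbove
      exact ⟨n, fun g hg => hn (Set.mem_image_of_mem _ hg)⟩
    obtain ⟨n, hn⟩ := hfs
    have ht : C + 2 * δ < (max T n : ℕ) :=
      hT.trans_le (by exact_mod_cast le_max_left T n)
    have h1 := key (max T n) ht
    exact hnn _ (max T n) ((hn _ h1).trans (le_max_right _ _)) (by simp)
  obtain ⟨g, hg⟩ := hpig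
  refine ⟨g, ?_⟩
  have hgx' : CI d (fun i => g * x' i) := (hA G d δ φ τ h b e).1 g x' hx'
  rw [e g x' hx']
  symm
  refine (b.eqv _ _ hx hgx').2 fun K => ?_
  obtain ⟨n, hn⟩ := exists_nat_ge (K + 2 * δ + d 1 g)
  obtain ⟨t, ht, hzt⟩ := hg n
  obtain ⟨N1, hN1⟩ := hzx t
  obtain ⟨N2, hN2⟩ := hzx' t
  refine ⟨max N1 N2, fun i j hi hj => ?_⟩
  have h1 := hN1 i ((le_max_left _ _).trans hi)
  have h2 := hN2 j ((le_max_right _ _).trans hj)
  have h3 := gp_mul h g (x' j) (z' t)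
  rw [← hzt, gp_symm h 1 (g * x' j)] at h3
  have ht' : (n : ℝ) ≤ t := by exact_mod_cast ht
  have hd0 : 0 ≤ d 1 g := by
    obtain ⟨m, hm⟩ := h.nat 1 g
    rw [hm]; positivity
  have h4 : (t : ℝ) - δ - d 1 g - δ ≤ gp d 1 (x i) (g * x' j) :=
    hyp' h (y := z t) (by linarith) (by linarith)
  linarith

end core

/-- CM-NOFIX: no global fixed point. -/
theorem t_NOFIX (hA : S_ACTC) (hR : S_RAY) : S_NOFIX := by
  intro G _ d δ φ τ h b e q
  by_contra hcon
  push Not at hcon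
  have hG := countable_group h
  have h1 : ∃ p' : Sph, p' ≠ q := by
    by_contra hne
    push Not at hne
    refine sph_uncountable ((Set.countable_singleton q).mono fun p _ => ?_)
    exact hne p
  obtain ⟨p', hp'⟩ := h1
  refine sph_uncountable
    (((Set.countable_singleton q).union (Set.countable_range fun g => τ g p')).mono
      fun p _ => ?_)
  by_cases hp : p = q
  · exact Or.inl hp
  · exact Or.inr (trans_of_fix hA hR h b e hcon hp hp')

end Pool.Agent.Y664.CM
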